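import Pool.Agent.helper82.OG.Spec

set_option autoImplicit false

open Finset

noncomputable section

namespace Pool.Agent.OG

open Pool.Agent.EP

open Classical in
/-- SEC: the second level. Uses HIT, ODI, MUL. -/
theorem SEC (hHIT : HIT_stmt) (hODI : ODI_stmt) (hMUL : MUL_stmt) : SEC_stmt := by
  intro a K Y V D τ T R ha hV hD hR
  set N : ℕ := 4 * 2 ^ a * Y with hN
  -- one row
  have hrow : ∀ r ∈ R, τ * (V / 2 - D * (T + 1)) ≤ #(Gd a r N) := by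
    intro r hr
    obtain ⟨hr0, hrK, -, hτ, hT⟩ := hR r hr
    have hD' : DvB D (2 ^ a * (4 * Y + r)) := by
      intro k hk hk'
      exact hD k hk (hk'.trans (Nat.mul_le_mul_left _ (by omega)))
    have h1 := hHIT a r Y V D hr0 hV hD'
    have h2 : D * #(TT r Y) * (#(TT r (4 * Y)) + 1) ≤ #(TT r Y) * (D * (T + 1)) := by
      calc D * #(TT r Y) * (#(TT r (4 * Y)) + 1) = #(TT r Y) * (D * (#(TT r (4 * Y)) + 1)) := by
            ring
        _ ≤ #(TT r Y) * (D * (T + 1)) :=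
            Nat.mul_le_mul_left _ (Nat.mul_le_mul_left _ (by omega))
    calc τ * (V / 2 - D * (T + 1)) ≤ #(TT r Y) * (V / 2 - D * (T + 1)) :=
          Nat.mul_le_mul_right _ hτ
      _ = #(TT r Y) * (V / 2) - #(TT r Y) * (D * (T + 1)) := Nat.mul_sub _ _ _
      _ ≤ #(Gd a r N) := by
          rw [← hN] at h1
          omega
  -- the pairs
  set S : Finset (Σ _ : ℕ, ℕ) := R.sigma fun r => Gd a r N with hS
  have hcardS : #R * (τ * (V / 2 - D * (T + 1))) ≤ #S := by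
    rw [hS, Finset.card_sigma, ← smul_eq_mul]
    exact Finset.card_nsmul_le_sum _ _ _ hrow
  refine hcardS.trans ?_
  -- the entries
  have hw : ∀ x ∈ S, ∃ w ∈ ws (x.1 * 2 ^ a), JG ac (x.1 * 2 ^ a - 3 * w ^ 2) (x.2 : ℤ) ≠ 0 := by
    intro x hx
    rw [hS, Finset.mem_sigma] at hx
    obtain ⟨hxR, hxG⟩ := hx
    rw [Gd, Finset.mem_filter, Finset.mem_Ioc] at hxG
    exact hODI a x.1 x.2 ha (hR _ hxR).2.2.1 hxG.1.1 hxG.2.1 hxG.2.2
  let f : (Σ _ : ℕ, ℕ) → ℕ × ℕ := fun x =>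
    if h : ∃ w ∈ ws (x.1 * 2 ^ a), JG ac (x.1 * 2 ^ a - 3 * w ^ 2) (x.2 : ℤ) ≠ 0 then
      (x.1 * 2 ^ a - 3 * h.choose ^ 2, x.2) else (0, x.2)
  have hf : ∀ x ∈ S, ∃ w ∈ ws (x.1 * 2 ^ a), f x = (x.1 * 2 ^ a - 3 * w ^ 2, x.2) ∧
      JG ac (x.1 * 2 ^ a - 3 * w ^ 2) (x.2 : ℤ) ≠ 0 := by
    intro x hx
    have h := hw x hx
    exact ⟨h.choose, h.choose_spec.1, by simp only [f, dif_pos h], h.choose_spec.2⟩
  refine Finset.card_le_mul_card_image_of_maps_to (f := f) ?_ _ ?_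
  · intro x hx
    obtain ⟨w, hwm, hfx, hJ⟩ := hf x hx
    rw [hS, Finset.mem_sigma] at hx
    obtain ⟨hxR, hxG⟩ := hx
    rw [Gd, Finset.mem_filter] at hxG
    rw [ws, Finset.mem_filter] at hwm
    rw [hfx, PQ, Finset.mem_filter, Finset.mem_product]
    refine ⟨⟨Finset.mem_Ioc.2 ⟨?_, ?_⟩, hxG.1⟩, hJ⟩
    · have := hwm.2.2
      change 0 < x.1 * 2 ^ a - 3 * w ^ 2
      omega
    · change x.1 * 2 ^ a - 3 * w ^ 2 ≤ K * 2 ^ a
      exact (Nat.sub_le _ _).trans (Nat.mul_le_mul_right _ (hR _ hxR).2.1)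
  · rintro ⟨j, M⟩ -
    refine le_trans ?_ (hMUL a K j ha)
    refine Finset.card_le_card_of_injOn (fun x => x.1) ?_ ?_
    · intro x hx
      rw [Finset.mem_coe, Finset.mem_filter] at hx
      obtain ⟨hxS, hfx⟩ := hx
      obtain ⟨w, hwm, hfx', -⟩ := hf x hxS
      rw [hS, Finset.mem_sigma] at hxS
      refine Finset.mem_coe.2 ((@Finset.mem_filter ℕ _ (fun _ => Classical.propDecidable _)
        _ _).2 ?_)
      refine ⟨Finset.mem_Ioc.2 ⟨(hR _ hxS.1).1, (hR _ hxS.1).2.1⟩, w, hwm, ?_⟩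
      rw [hfx'] at hfx
      exact (Prod.mk.inj hfx).1
    · intro x hx y hy hxy
      rw [Finset.mem_coe, Finset.mem_filter] at hx hy
      obtain ⟨hxS, hfx⟩ := hx
      obtain ⟨hyS, hfy⟩ := hy
      obtain ⟨w, -, hfx', -⟩ := hf x hxS
      obtain ⟨w', -, hfy', -⟩ := hf y hyS
      rw [hfx'] at hfx
      rw [hfy'] at hfy
      have h1 : x.2 = M := (Prod.mk.inj hfx).2
      have h2 : y.2 = M := (Prod.mk.inj hfy).2
      have h3 : x.1 = y.1 := hxy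
      obtain ⟨x1, x2⟩ := x
      obtain ⟨y1, y2⟩ := y
      simp only at h1 h2 h3
      subst h1 h2 h3
      rfl

end Pool.Agent.OG
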